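import Mathlib

open Set Filter Topology Metric

namespace Pool.Agent.Results.MP_2c23da_an.Counter

section
variable (X : Type) [NormedAddCommGroup X] [NormedSpace ℝ X]

/-- slice index of thickness -/
noncomputable def Ts : ℝ := sInf {r | 0 < r ∧ ∃ (x : X) (f : StrongDual ℝ X) (α : ℝ),
  ‖x‖ = 1 ∧ ‖f‖ = 1 ∧ 0 < α ∧ {y | ‖y‖ ≤ 1 ∧ 1 - α < f y} ⊆ closedBall x r}

/-- weak star slice index of thickness of the dual -/
noncomputable def Tsw : ℝ := sInf {r | 0 < r ∧ ∃ (f : StrongDual ℝ X) (x : X) (α : ℝ),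
  ‖f‖ = 1 ∧ ‖x‖ = 1 ∧ 0 < α ∧ {g : StrongDual ℝ X | ‖g‖ ≤ 1 ∧ 1 - α < g x} ⊆ closedBall f r}

/-- weakly compact operator -/
def WC (T : X →L[ℝ] X) : Prop := IsCompact (closure (toWeakSpace ℝ X '' (T '' closedBall 0 1)))

noncomputable def W : ℝ := sInf {s | ∃ T : X →L[ℝ] X, ‖T‖ = 1 ∧ WC X T ∧ s = ‖T + 1‖}
end

abbrev Y := C(unitInterval, ℝ)
abbrev Z := WithLp 2 (ℝ × Y)

theorem sq (x : Z) : ‖x‖ ^ 2 = x.fst ^ 2 + ‖x.snd‖ ^ 2 := by
  rw [WithLp.prod_norm_sq_eq_of_L2, Real.norm_eq_abs, sq_abs]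

theorem zero_of {S : Set ℝ} (h0 : ∀ r ∈ S, 0 < r) (h : ∀ r, 0 < r → r < 1 → r ∈ S) :
    sInf S = 0 := by
  refine le_antisymm (le_of_forall_pos_le_add fun r hr => ?_) (Real.sInf_nonneg fun r hr => (h0 r hr).le)
  exact (csInf_le ⟨0, fun r hr => (h0 r hr).le⟩ (h (min r (1 / 2)) (by positivity)
    ((min_le_right _ _).trans_lt (by norm_num)))).trans (by simp)

theorem result : ∃ (X : Type) (_ : NormedAddCommGroup X) (_ : NormedSpace ℝ X),
    CompleteSpace X ∧ Nontrivial X ∧ Ts X = 0 ∧ Tsw X = 0 ∧ 1 ≤ W X := by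
  set e : Z := WithLp.toLp 2 (1, 0)
  have he : ‖e‖ = 1 := by
    have := sq e; simp [e] at this; simpa [e] using this
  set f : StrongDual ℝ Z := WithLp.fstL 2 ℝ ℝ Y
  have hf : ∀ x, f x = x.fst := fun _ => rfl
  have hle : ∀ x : Z, |x.fst| ≤ ‖x‖ ∧ ‖x.snd‖ ≤ ‖x‖ := fun x =>
    ⟨abs_le_of_sq_le_sq' (by nlinarith [sq x]) (norm_nonneg _) |> abs_le.2,
      (abs_le_of_sq_le_sq' (by nlinarith [sq x]) (norm_nonneg _)).2⟩
  have hf1 : ‖f‖ = 1 := le_antisymm (f.opNorm_le_bound zero_le_one fun x => by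
    rw [one_mul]; exact (hle x).1) (by simpa [he, hf, e] using f.le_opNorm e)
  refine ⟨Z, inferInstance, inferInstance, inferInstance, inferInstance,
    zero_of (fun _ h => h.1) fun r h0 h1 => ⟨h0, e, f, r ^ 2 / 2, he, hf1, by positivity,
      fun y ⟨h2, h3⟩ => ?_⟩,
    zero_of (fun _ h => h.1) fun r h0 h1 => ⟨h0, f, e, r ^ 2 / 8, hf1, he, by positivity,
      fun g ⟨h2, h3⟩ => ?_⟩, le_csInf ⟨_, f.smulRight e, by simp [he, hf1], ?_, rfl⟩ ?_⟩
  · rw [mem_closedBall, dist_eq_norm]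
    refine (abs_le_of_sq_le_sq' ?_ h0.le).2
    have := sq y
    rw [sq]
    simp only [e, WithLp.sub_fst, WithLp.sub_snd, WithLp.toLp_fst, WithLp.toLp_snd, sub_zero]
    rw [hf] at h3
    nlinarith [norm_nonneg y]
  · rw [mem_closedBall, dist_eq_norm]
    have key : ∀ y : Y, g (WithLp.toLp 2 (0, y)) ≤ r / 2 * ‖y‖ := fun y => by
      rcases eq_or_ne y 0 with rfl | hy
      · exact (map_zero g).le.trans (by simp)
      have hp := norm_pos_iff.2 hy
      set x : Z := e + (r / 2 / ‖y‖) • WithLp.toLp 2 (0, y)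
      have h4 : ‖x‖ ^ 2 = 1 + (r / 2) ^ 2 := by
        rw [sq]; simp [x, e, norm_smul, hp.ne', abs_of_pos h0]
      have h5 : ‖x‖ ≤ 1 + r ^ 2 / 8 := (abs_le_of_sq_le_sq' (by nlinarith [sq_nonneg (r ^ 2)])
        (by positivity)).2
      have h6 : g x ≤ ‖x‖ := (le_abs_self _).trans ((g.le_opNorm x).trans
        (mul_le_of_le_one_left (norm_nonneg _) h2))
      simp only [x, map_add, map_smul, smul_eq_mul] at h6
      have h7 : r / 2 / ‖y‖ * g (WithLp.toLp 2 (0, y)) ≤ r / 2 / ‖y‖ * (r / 2 * ‖y‖) := by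
        rw [show r / 2 / ‖y‖ * (r / 2 * ‖y‖) = r ^ 2 / 4 by field_simp; norm_num]; linarith
      exact le_of_mul_le_mul_left h7 (by positivity)
    refine ContinuousLinearMap.opNorm_le_bound _ h0.le fun x => ?_
    have h4 : x = x.fst • e + WithLp.toLp 2 (0, x.snd) := by
      apply WithLp.ofLp_injective 2; ext <;> simp [e]
    have h5 : |g (WithLp.toLp 2 (0, x.snd))| ≤ r / 2 * ‖x.snd‖ := abs_le.2 ⟨by
      have := key (-x.snd)
      rw [show (WithLp.toLp 2 (0, -x.snd) : Z) = -WithLp.toLp 2 (0, x.snd) by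
        apply WithLp.ofLp_injective 2; ext <;> simp,
        map_neg, norm_neg] at this
      linarith, key _⟩
    have h6 : g e ≤ 1 := (le_abs_self _).trans ((g.le_opNorm e).trans (by rw [he]; linarith))
    have h7 : (g - f) x = x.fst * (g e - 1) + g (WithLp.toLp 2 (0, x.snd)) := by
      rw [sub_apply, hf]
      conv_lhs => rw [h4, map_add, map_smul, ← h4]
      simp only [smul_eq_mul]; ring
    rw [h7]
    refine (abs_add_le _ _).trans ?_
    rw [abs_mul]
    have h8 : |g e - 1| ≤ r / 2 := abs_le.2 ⟨by nlinarith, by linarith⟩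
    nlinarith [mul_le_mul (hle x).1 h8 (abs_nonneg _) (norm_nonneg _), (hle x).2]
  · have hc : IsCompact (toWeakSpaceCLM ℝ Z '' ((fun t : ℝ => t • e) '' Icc (-1) 1)) :=
      (isCompact_Icc.image (by fun_prop)).image (toWeakSpaceCLM ℝ Z).continuous
    refine hc.of_isClosed_subset isClosed_closure (closure_minimal (image_mono ?_) hc.isClosed)
    rintro _ ⟨x, hx, rfl⟩
    exact ⟨f x, abs_le.1 ((hle x).1.trans (mem_closedBall_zero_iff.1 hx)), rfl⟩
  · rintro _ ⟨T, -, hT, rfl⟩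
    by_contra! h
    set S : Z →L[ℝ] Z := -(Units.oneSub _ h).inv
    have hS : ∀ x, T (S x) = x := fun x => by
      have := DFunLike.congr_fun (Units.oneSub _ h).val_inv x
      simpa [S] using this
    set c := (‖S‖ + 1)⁻¹
    have hc : 0 < c := by positivity
    set u : ℕ → Z := fun n => c • WithLp.toLp 2 (0, ⟨fun t => t.1 ^ n, by fun_prop⟩)
    obtain ⟨x, -, hx⟩ := hT.exists_mapClusterPt (f := atTop) (u := fun n => toWeakSpace ℝ Z (u n))
      (le_principal_iff.2 (mem_map.2 (Eventually.of_forall fun n => subset_closure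
        ⟨_, ⟨S (u n), mem_closedBall_zero_iff.2 (by
          refine (S.le_opNorm _).trans ?_
          have : ‖u n‖ ≤ c := by
            rw [norm_smul, Real.norm_of_nonneg hc.le, WithLp.norm_toLp_snd]
            refine mul_le_of_le_one_right hc.le ((ContinuousMap.norm_le _ zero_le_one).2 fun t => ?_)
            simpa [abs_of_nonneg t.2.1] using pow_le_one₀ t.2.1 t.2.2
          refine (mul_le_mul_of_nonneg_left this (norm_nonneg _)).trans ?_
          rw [mul_inv_le_iff₀ (by positivity)]; simp), hS _⟩, rfl⟩)))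
    have key : ∀ t a, Tendsto (fun n : ℕ => c * t.1 ^ n) atTop (𝓝 a) →
        ((toWeakSpace ℝ Z).symm x).snd t = a := fun (t : unitInterval) a ha => by
      set g : StrongDual ℝ Z := (ContinuousMap.evalCLM ℝ t).comp (WithLp.sndL 2 ℝ ℝ Y)
      have h1 : Continuous fun y : WeakSpace ℝ Z => g y :=
        WeakBilin.eval_continuous (topDualPairing ℝ Z).flip g
      exact eq_of_nhds_neBot ((hx.continuousAt_comp h1.continuousAt).clusterPt.mono ha)
    have h1 := key 1 c (by simp)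
    have h0 : ∀ n : ℕ, 0 ≤ 1 - 1 / ((n : ℝ) + 1) := fun n =>
      sub_nonneg.2 ((div_le_one (by positivity)).2 (by simp))
    have h2 : Tendsto (fun n : ℕ => (⟨1 - 1 / ((n : ℝ) + 1), h0 n, sub_le_self _ (by positivity)⟩ :
        unitInterval)) atTop (𝓝 1) :=
      tendsto_subtype_rng.2 (by
        simpa using tendsto_one_div_add_atTop_nhds_zero_nat.const_sub (1 : ℝ))
    have h3 := (((toWeakSpace ℝ Z).symm x).snd.continuous.tendsto _).comp h2
    rw [h1] at h3
    refine hc.ne' (tendsto_nhds_unique h3 (tendsto_const_nhds.congr fun n => (key _ _ ?_).symm))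
    simpa using (tendsto_pow_atTop_nhds_zero_of_lt_one (r := 1 - 1 / ((n : ℝ) + 1))
      (h0 n) (sub_lt_self _ (by positivity))).const_mul c

end Pool.Agent.Results.MP_2c23da_an.Counter
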